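import Pool.Agent.helper46.T6L.SpecO
import Pool.Agent.helper68.T5.HSD

/-!
# Row t6l:OSD (MP_16912e_nt): one conductor, all discriminants
-/

set_option autoImplicit false

namespace Pool.Agent.T6L

open Finset NumberField Pool.Agent.helper3.FT Pool.Agent.helper47.RA Pool.Agent.T5
open Pool.Agent.helper26.T5 (nn LEMB LPR LAW LP LPA HLN HPR HSQ HID HCL HGA)
open Pool.Agent.helper28.LT (rad)

/-- the term `2 π √N / (m √|D|)` -/
theorem OSD_term (N D m : ℝ) (f : ℕ) (hf : 1 ≤ f) (hm : 0 < m) (hN : 1 ≤ N)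
    (hD : N / 4 ≤ -D * (f : ℝ) ^ 2) (hD0 : D < 0) :
    2 * Real.pi * √N / (m * √|D|) ≤ 4 * Real.pi * (f / m) := by
  have hf0 : (0 : ℝ) < f := by exact_mod_cast hf
  have habs : |D| = -D := abs_of_neg hD0
  rw [habs]
  have hs : √N ≤ 2 * f * √(-D) := by
    have h1 : √N ≤ √((2 * (f : ℝ)) ^ 2 * (-D)) := by
      refine Real.sqrt_le_sqrt ?_
      nlinarith
    rwa [Real.sqrt_mul (by positivity), Real.sqrt_sq (by positivity)] at h1
  have hsD : 0 < √(-D) := Real.sqrt_pos.2 (by linarith)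
  have hpi0 : 0 < Real.pi := Real.pi_pos
  rw [div_le_iff₀ (by positivity)]
  have e1 : 4 * Real.pi * (f / m) * (m * √(-D)) = 2 * Real.pi * (2 * f * √(-D)) := by
    field_simp
    ring
  rw [e1]
  exact mul_le_mul_of_nonneg_left hs (by positivity)

theorem OSD_WW (f : ℕ) : 0 < WW f := by
  unfold WW
  refine Finset.prod_pos fun p hp => ?_
  exact pow_pos (Nat.prime_of_mem_primeFactors hp).pos _

/-- the product of the two factors -/
theorem OSD_prod (k : ℕ) (h A B x y τ : ℝ) (hh : 0 ≤ h) (hA : 1 ≤ A) (hB : 1 ≤ B) (hτ : 0 ≤ τ)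
    (hx0 : 0 ≤ x) (hy0 : 0 ≤ y)
    (hx : x ≤ 4 * Real.pi * A) (hy : y ≤ 4 * Real.pi * B) :
    τ ^ 2 * (h * (6 ^ k * (1 + x) + 1)) * (12 * (7 ^ k * (1 + y))) ≤
      24 * (1 + 4 * Real.pi) ^ 2 * 49 ^ k * τ ^ 2 * h * (A * B) := by
  have hpi0 : 0 < Real.pi := Real.pi_pos
  have h67 : (6 : ℝ) ^ k ≤ 7 ^ k := pow_le_pow_left₀ (by norm_num) (by norm_num) _
  have h7 : 1 ≤ (7 : ℝ) ^ k := one_le_pow₀ (by norm_num)
  have h6 : 0 < (6 : ℝ) ^ k := by positivity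
  have a1 : 1 + x ≤ (1 + 4 * Real.pi) * A := by nlinarith
  have a2 : 1 + y ≤ (1 + 4 * Real.pi) * B := by nlinarith
  have a3 : (6 : ℝ) ^ k * (1 + x) ≤ 7 ^ k * ((1 + 4 * Real.pi) * A) :=
    mul_le_mul h67 a1 (by positivity) (by positivity)
  have a4 : 1 ≤ (7 : ℝ) ^ k * ((1 + 4 * Real.pi) * A) := by
    have b1 : 1 ≤ (1 + 4 * Real.pi) * A := by nlinarith
    nlinarith
  have a5 : (6 : ℝ) ^ k * (1 + x) + 1 ≤ 2 * (7 ^ k * ((1 + 4 * Real.pi) * A)) := by linarith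
  have a6 : 12 * ((7 : ℝ) ^ k * (1 + y)) ≤ 12 * (7 ^ k * ((1 + 4 * Real.pi) * B)) := by
    refine mul_le_mul_of_nonneg_left ?_ (by norm_num)
    exact mul_le_mul_of_nonneg_left a2 (by positivity)
  have a7 : τ ^ 2 * (h * (6 ^ k * (1 + x) + 1)) ≤ τ ^ 2 * (h * (2 * (7 ^ k * ((1 + 4 * Real.pi) * A)))) :=
    mul_le_mul_of_nonneg_left (mul_le_mul_of_nonneg_left a5 hh) (by positivity)
  have e49 : (49 : ℝ) ^ k = 7 ^ k * 7 ^ k := by
    rw [← mul_pow]
    norm_num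
  calc τ ^ 2 * (h * (6 ^ k * (1 + x) + 1)) * (12 * (7 ^ k * (1 + y)))
      ≤ τ ^ 2 * (h * (2 * (7 ^ k * ((1 + 4 * Real.pi) * A)))) * (12 * (7 ^ k * ((1 + 4 * Real.pi) * B))) :=
        mul_le_mul a7 a6 (by positivity) (by positivity)
    _ = 24 * (1 + 4 * Real.pi) ^ 2 * 49 ^ k * τ ^ 2 * h * (A * B) := by
        rw [e49]
        ring

theorem OSD (hUB : UBH_stmt) (hOFD : OFD_stmt) (hOAR : OAR_stmt) : OSD_stmt := by
  obtain ⟨C₀, hC₀, hub⟩ := hUB
  obtain ⟨hO1, hO2⟩ := hOAR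
  refine ⟨48 * (1 + 4 * Real.pi) ^ 2 * C₀ + 1, ?_, ?_⟩
  · have : 0 ≤ 48 * (1 + 4 * Real.pi) ^ 2 * C₀ := by positivity
    linarith
  intro h hh N f hN hf h5 F hF
  have hpi0 : 0 < Real.pi := Real.pi_pos
  have hf0 : (0 : ℝ) < f := by exact_mod_cast hf
  have hf1 : (1 : ℝ) ≤ f := by exact_mod_cast hf
  have hN0 : 0 < N := by linarith
  have hsN : 0 < √N := Real.sqrt_pos.2 hN0
  have hfZ : ((f : ℤ) ^ 2) ≠ 0 := by
    have : (f : ℤ) ≠ 0 := by exact_mod_cast (show f ≠ 0 by omega)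
    exact pow_ne_zero _ this
  have hWW : (0 : ℝ) < √(WW f : ℝ) := Real.sqrt_pos.2 (by exact_mod_cast OSD_WW f)
  have hgw0 : 0 ≤ gw f := by
    unfold gw
    positivity
  -- the discriminants
  set s : Finset ℤ := F.image (fun t => dis t / (f : ℤ) ^ 2) with hs
  have hsprop : ∀ D ∈ s, IsFund D ∧ N / 4 ≤ -(D : ℝ) * (f : ℝ) ^ 2 ∧
      -(D : ℝ) * (f : ℝ) ^ 2 ≤ N := by
    intro D hD
    obtain ⟨t, ht, rfl⟩ := mem_image.1 hD
    obtain ⟨hT, D₀, hD₀, hdis⟩ := hF t ht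
    have h1 := hT.d1
    have h2 := hT.d2
    have hq : dis t / (f : ℤ) ^ 2 = D₀ := by
      rw [hdis]
      exact Int.mul_ediv_cancel _ hfZ
    rw [hq]
    rw [hdis] at h1 h2
    push_cast at h1 h2
    refine ⟨hD₀, ?_, ?_⟩
    · linarith
    · linarith
  have hsneg : ∀ D ∈ s, (D : ℝ) < 0 := by
    intro D hD
    obtain ⟨-, h1, -⟩ := hsprop D hD
    by_contra h0
    push Not at h0
    have : -(D : ℝ) * (f : ℝ) ^ 2 ≤ 0 := by
      have : 0 ≤ (D : ℝ) * (f : ℝ) ^ 2 := by positivity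
      linarith
    linarith
  set K1 : ℝ := 24 * (1 + 4 * Real.pi) ^ 2 * gw f * (f : ℝ) ^ 2 with hK1
  have hK10 : 0 ≤ K1 := by rw [hK1]; positivity
  -- one field
  have hone : ∀ D ∈ s, ((F.filter (fun t => dis t / (f : ℤ) ^ 2 = D)).card : ℝ) ≤ K1 * h D := by
    intro D hD
    obtain ⟨hD1, hD2, hD3⟩ := hsprop D hD
    have hDneg := hsneg D hD
    obtain ⟨Φ⟩ := Pool.Agent.helper68.T5.HSD_fld D hD1
    have hQD : Φ.Q.D = D := Φ.hD
    have hcl : (h D : ℝ) = (Nat.card {x : ClassGroup (𝓞 Φ.K) // x ^ 5 = 1} : ℝ) := by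
      have e := hh Φ.K Φ.fin
      rw [Φ.dK] at e
      exact_mod_cast e
    have hf4 : f ^ 4 ≠ 0 := pow_ne_zero _ (by omega)
    -- one value of `b`
    have hb : ∀ b ∈ (f ^ 4).divisors,
        (((F.filter (fun t => dis t / (f : ℤ) ^ 2 = D)).filter (fun t => ff f t.2.2.2.toNat = b)).card : ℝ) ≤
        24 * (1 + 4 * Real.pi) ^ 2 * 49 ^ f.primeFactors.card * ((f ^ 20).divisors.card : ℝ) ^ 2 * h D *
          ((f : ℝ) ^ 2 / √(WW f : ℝ)) := by
      intro b hbm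
      have hbdvd : b ∣ f ^ 4 := Nat.dvd_of_mem_divisors hbm
      have hb1 : 1 ≤ b := Nat.pos_of_mem_divisors hbm
      obtain ⟨hs1, hs2, hr1, hO3⟩ := hO2 f b hf hb1
      have hb0 : (0 : ℝ) < b := by exact_mod_cast hb1
      have hr0 : (0 : ℝ) < rb f b := by exact_mod_cast hr1
      have hs0 : (0 : ℝ) < sl f b := by exact_mod_cast hs1
      have h1 := hOFD Φ.K Φ.Q f b √N √N Φ.fin (by rw [hQD]; exact_mod_cast hDneg) hf h5 hsN hsN
        ((F.filter (fun t => dis t / (f : ℤ) ^ 2 = D)).filter (fun t => ff f t.2.2.2.toNat = b)) (by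
          intro t ht
          rw [mem_filter, mem_filter] at ht
          obtain ⟨⟨ht1, ht2⟩, ht3⟩ := ht
          obtain ⟨hT, D₀, -, hdis⟩ := hF t ht1
          refine ⟨hT.tt, by have := hT.z1; omega, hT.z2, hT.l1, hT.l2, ?_, ht3⟩
          rw [hQD, ← ht2, hdis, Int.mul_ediv_cancel _ hfZ])
      rw [← hcl, hQD] at h1
      set A : ℝ := max 1 ((f : ℝ) / ((b : ℝ) * rb f b)) with hA
      set B : ℝ := (f : ℝ) / sl f b with hB
      have hA1 : 1 ≤ A := le_max_left _ _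
      have hB1 : 1 ≤ B := by
        rw [hB, one_le_div hs0]
        exact_mod_cast hs2
      have tY := OSD_term N (D : ℝ) ((b : ℝ) * rb f b) f hf (by positivity) hN hD2 hDneg
      have tX := OSD_term N (D : ℝ) (sl f b : ℝ) f hf hs0 hN hD2 hDneg
      have tY' : 2 * Real.pi * √N / ((b : ℝ) * rb f b * √|(D : ℝ)|) ≤ 4 * Real.pi * A :=
        tY.trans (mul_le_mul_of_nonneg_left (le_max_right _ _) (by positivity))
      have h2 := OSD_prod f.primeFactors.card (h D : ℝ) A B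
        (2 * Real.pi * √N / ((b : ℝ) * rb f b * √|(D : ℝ)|))
        (2 * Real.pi * √N / ((sl f b : ℝ) * √|(D : ℝ)|)) ((b ^ 5).divisors.card : ℝ)
        (Nat.cast_nonneg _) hA1 hB1 (Nat.cast_nonneg _) (by positivity) (by positivity) tY' tX
      refine h1.trans (h2.trans ?_)
      have hdc : ((b ^ 5).divisors.card : ℝ) ≤ ((f ^ 20).divisors.card : ℝ) := by
        have h3 : b ^ 5 ∣ f ^ 20 := by
          have h4 := pow_dvd_pow_of_dvd hbdvd 5
          rwa [← pow_mul] at h4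
        exact_mod_cast Finset.card_le_card (Nat.divisors_subset_of_dvd (pow_ne_zero _ (by omega)) h3)
      have hdc2 : ((b ^ 5).divisors.card : ℝ) ^ 2 ≤ ((f ^ 20).divisors.card : ℝ) ^ 2 :=
        pow_le_pow_left₀ (Nat.cast_nonneg _) hdc 2
      have hAB : A * B ≤ (f : ℝ) ^ 2 / √(WW f : ℝ) := by
        rw [le_div_iff₀ hWW]
        exact hO3
      have hAB0 : 0 ≤ A * B := by positivity
      have hhD : (0 : ℝ) ≤ h D := Nat.cast_nonneg _
      refine mul_le_mul ?_ hAB hAB0 (by positivity)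
      refine mul_le_mul_of_nonneg_right ?_ hhD
      exact mul_le_mul_of_nonneg_left hdc2 (by positivity)
    have hmaps : ∀ t ∈ F.filter (fun t => dis t / (f : ℤ) ^ 2 = D), ff f t.2.2.2.toNat ∈ (f ^ 4).divisors := by
      intro t ht
      rw [mem_filter] at ht
      obtain ⟨hT, -⟩ := hF t ht.1
      have hz := hT.z1
      obtain ⟨-, -, h3, -⟩ := hO1 f t.2.2.2.toNat hf (by omega)
      exact Nat.mem_divisors.2 ⟨h3, hf4⟩
    have hcard := Finset.card_eq_sum_card_fiberwise (s := F.filter (fun t => dis t / (f : ℤ) ^ 2 = D))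
      (t := (f ^ 4).divisors) (f := fun t => ff f t.2.2.2.toNat) (fun t ht => hmaps t ht)
    rw [hcard]
    push_cast
    refine (Finset.sum_le_sum hb).trans ?_
    rw [Finset.sum_const, nsmul_eq_mul, hK1]
    refine le_of_eq ?_
    unfold gw
    ring
  -- the sum
  have hcard : (F.card : ℝ) = ∑ D ∈ s, ((F.filter (fun t => dis t / (f : ℤ) ^ 2 = D)).card : ℝ) := by
    rw [card_eq_sum_card_image (fun t => dis t / (f : ℤ) ^ 2) F]
    push_cast
    rfl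
  rcases s.eq_empty_or_nonempty with he | hne
  · rw [hcard, he, Finset.sum_empty]
    positivity
  have hNf : 1 ≤ N / (f : ℝ) ^ 2 := by
    obtain ⟨D, hD⟩ := hne
    obtain ⟨-, -, h3⟩ := hsprop D hD
    have h4 := hsneg D hD
    have h5 : (D : ℝ) ≤ -1 := by
      have h6 : D < 0 := by exact_mod_cast h4
      have h7 : D ≤ -1 := by omega
      exact_mod_cast h7
    rw [one_le_div (by positivity)]
    nlinarith [sq_nonneg (f : ℝ)]
  have hsum := hub h hh (⌊N / (f : ℝ) ^ 2⌋₊ + 1) s (by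
    intro D hD
    obtain ⟨h1, -, h3⟩ := hsprop D hD
    have h4 := hsneg D hD
    have h6 : D < 0 := by exact_mod_cast h4
    refine ⟨h1, h6, ?_⟩
    have h7 : -(D : ℝ) ≤ N / (f : ℝ) ^ 2 := by
      rw [le_div_iff₀ (by positivity)]
      exact h3
    have h8 : D.natAbs ≤ ⌊N / (f : ℝ) ^ 2⌋₊ := by
      refine Nat.le_floor ?_
      have h9 : ((D.natAbs : ℕ) : ℝ) = -(D : ℝ) := by
        rw [Nat.cast_natAbs, abs_of_neg h6]
        push_cast
        ring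
      rw [h9]
      exact h7
    rw [Int.abs_eq_natAbs]
    exact_mod_cast Nat.lt_succ_of_le h8)
  have hfl : ((⌊N / (f : ℝ) ^ 2⌋₊ + 1 : ℕ) : ℝ) ≤ 2 * (N / (f : ℝ) ^ 2) := by
    have h1 : (⌊N / (f : ℝ) ^ 2⌋₊ : ℝ) ≤ N / (f : ℝ) ^ 2 := Nat.floor_le (by positivity)
    push_cast
    linarith
  have hfin : ∑ D ∈ s, (h D : ℝ) ≤ 2 * C₀ * N / (f : ℝ) ^ 2 := by
    refine hsum.trans ((mul_le_mul_of_nonneg_left hfl hC₀).trans (le_of_eq ?_))
    ring
  rw [hcard]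
  calc ∑ D ∈ s, ((F.filter (fun t => dis t / (f : ℤ) ^ 2 = D)).card : ℝ)
      ≤ ∑ D ∈ s, K1 * (h D : ℝ) := Finset.sum_le_sum hone
    _ = K1 * ∑ D ∈ s, (h D : ℝ) := by rw [mul_sum]
    _ ≤ K1 * (2 * C₀ * N / (f : ℝ) ^ 2) := mul_le_mul_of_nonneg_left hfin hK10
    _ = 48 * (1 + 4 * Real.pi) ^ 2 * C₀ * gw f * N := by
        rw [hK1]
        field_simp
        ring
    _ ≤ (48 * (1 + 4 * Real.pi) ^ 2 * C₀ + 1) * gw f * N := by
        have : 0 ≤ gw f * N := by positivity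
        nlinarith

end Pool.Agent.T6L
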